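import Mathlib

/-!
# Universal BPBp-RSE domains are universal BPBp-ASE domains
-/

namespace Pool.Agent.Results.MP_2e9c83_an.UniversalDomains

open Filter Topology

universe u v w

section Defs

variable {𝕜 : Type w} [RCLike 𝕜] {X : Type u} {Y : Type v} [NormedAddCommGroup X]
  [NormedSpace 𝕜 X] [NormedAddCommGroup Y] [NormedSpace 𝕜 Y]

/-- `T` is absolutely strongly exposing. -/
def IsASE (T : X →L[𝕜] Y) : Prop :=
  ∃ x₀ : X, ‖x₀‖ = 1 ∧ ∀ x : ℕ → X, (∀ n, ‖x n‖ ≤ 1) →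
    Tendsto (fun n => ‖T (x n)‖) atTop (𝓝 ‖T‖) →
    ∃ (σ : ℕ → ℕ) (c : 𝕜), StrictMono σ ∧ ‖c‖ = 1 ∧
      Tendsto (fun n => x (σ n)) atTop (𝓝 (c • x₀))

/-- `T` is range strongly exposing. -/
def IsRSE (T : X →L[𝕜] Y) : Prop :=
  ∃ x₀ : X, ‖x₀‖ = 1 ∧ ∀ x : ℕ → X, (∀ n, ‖x n‖ ≤ 1) →
    Tendsto (fun n => ‖T (x n)‖) atTop (𝓝 ‖T‖) →
    ∃ (σ : ℕ → ℕ) (c : 𝕜), StrictMono σ ∧ ‖c‖ = 1 ∧
      Tendsto (fun n => T (x (σ n))) atTop (𝓝 (c • T x₀))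

variable (𝕜 X Y)

/-- the pair `(X, Y)` has the BPBp-RSE -/
def BPBpRSE : Prop :=
  ∀ ε : ℝ, 0 < ε → ∃ η : ℝ, 0 < η ∧ η < ε ∧
    ∀ T : X →L[𝕜] Y, ‖T‖ = 1 → ∀ x : X, ‖x‖ = 1 → 1 - η < ‖T x‖ →
      ∃ (S : X →L[𝕜] Y) (x₀ : X), IsRSE S ∧ ‖x₀‖ = 1 ∧ ‖S‖ = 1 ∧ ‖S x₀‖ = 1 ∧
        ‖S - T‖ < ε ∧ ‖x - x₀‖ < ε

/-- the pair `(X, Y)` has the BPBp-ASE -/
def BPBpASE : Prop :=
  ∀ ε : ℝ, 0 < ε → ∃ η : ℝ, 0 < η ∧ η < ε ∧
    ∀ T : X →L[𝕜] Y, ‖T‖ = 1 → ∀ x : X, ‖x‖ = 1 → 1 - η < ‖T x‖ →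
      ∃ (S : X →L[𝕜] Y) (x₀ : X), IsASE S ∧ ‖x₀‖ = 1 ∧ ‖S‖ = 1 ∧ ‖S x₀‖ = 1 ∧
        ‖S - T‖ < ε ∧ ‖x - x₀‖ < ε

end Defs

/-- `X` is a universal BPBp-RSE domain: `(X, Z)` has the BPBp-RSE for every Banach space `Z`. -/
def IsUniversalRSE (𝕜 : Type w) [RCLike 𝕜] (X : Type u) [NormedAddCommGroup X]
    [NormedSpace 𝕜 X] : Prop :=
  ∀ (Z : Type u) [NormedAddCommGroup Z] [NormedSpace 𝕜 Z] [CompleteSpace Z], BPBpRSE 𝕜 X Z

/-- `X` is a universal BPBp-ASE domain: `(X, Z)` has the BPBp-ASE for every Banach space `Z`. -/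
def IsUniversalASE (𝕜 : Type w) [RCLike 𝕜] (X : Type u) [NormedAddCommGroup X]
    [NormedSpace 𝕜 X] : Prop :=
  ∀ (Z : Type u) [NormedAddCommGroup Z] [NormedSpace 𝕜 Z] [CompleteSpace Z], BPBpASE 𝕜 X Z

section Main

variable {𝕜 : Type w} [RCLike 𝕜] {X : Type u} {Z : Type v} [NormedAddCommGroup X]
  [NormedSpace 𝕜 X] [NormedAddCommGroup Z] [NormedSpace 𝕜 Z]

lemma norm_fst_le' (S : X →L[𝕜] (Z × X)) (x : X) : ‖(S x).1‖ ≤ ‖S x‖ := norm_fst_le (S x)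

/-- An ASE operator is RSE. -/
lemma isRSE_of_isASE {Y : Type v} [NormedAddCommGroup Y] [NormedSpace 𝕜 Y] {T : X →L[𝕜] Y}
    (h : IsASE T) : IsRSE T := by
  obtain ⟨x₀, h0, h⟩ := h
  refine ⟨x₀, h0, fun x hx hlim => ?_⟩
  obtain ⟨σ, c, hσ, hc, hl⟩ := h x hx hlim
  refine ⟨σ, c, hσ, hc, ?_⟩
  have := (T.continuous.tendsto (c • x₀)).comp hl
  rwa [map_smul] at this

/-- If `(X, Z ⊕_∞ X)` has the BPBp-RSE then `(X, Z)` has the BPBp-ASE, with modulus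
`η(min(ε, 1/4))`. -/
theorem bpbpASE_of_prod (h : BPBpRSE 𝕜 X (Z × X)) : BPBpASE 𝕜 X Z := by
  intro ε hε
  obtain ⟨η, hη0, hη1, hη⟩ := h (min ε (1 / 4)) (lt_min hε (by norm_num))
  refine ⟨η, hη0, hη1.trans_le (min_le_left _ _), ?_⟩
  intro T hT x hx hTx
  set J : X →L[𝕜] X := ((1 / 2 : ℝ) : 𝕜) • ContinuousLinearMap.id 𝕜 X with hJ
  have hJn : ∀ y, ‖J y‖ = 1 / 2 * ‖y‖ := by
    intro y
    have : J y = ((1 / 2 : ℝ) : 𝕜) • y := rfl
    rw [this, norm_smul, RCLike.norm_ofReal, abs_of_pos (by norm_num)]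
  set T' : X →L[𝕜] (Z × X) := T.prod J with hT'
  have hT'le : ∀ y, ‖T' y‖ ≤ ‖y‖ := by
    intro y
    have : T' y = (T y, J y) := rfl
    rw [this, Prod.norm_def]
    apply max_le
    · have := T.le_opNorm y
      rwa [hT, one_mul] at this
    · simp only
      rw [hJn]
      have := norm_nonneg y
      linarith
  have hTle : ∀ y, ‖T y‖ ≤ ‖T' y‖ := fun y => norm_fst_le (T' y)
  have hT'1 : ‖T'‖ = 1 := by
    apply le_antisymm
    · exact ContinuousLinearMap.opNorm_le_bound _ zero_le_one (fun y => by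
        rw [one_mul]; exact hT'le y)
    · rw [← hT]
      apply ContinuousLinearMap.opNorm_le_bound _ (norm_nonneg _)
      intro y
      exact (hTle y).trans (T'.le_opNorm y)
  obtain ⟨S', x₀, hS'RSE, hx₀, hS'1, hS'x₀, hS'T', hxx₀⟩ :=
    hη T' hT'1 x hx (hTx.trans_le (hTle x))
  set S : X →L[𝕜] Z := (ContinuousLinearMap.fst 𝕜 Z X).comp S' with hS
  set R : X →L[𝕜] X := (ContinuousLinearMap.snd 𝕜 Z X).comp S' with hR
  have hSle : ∀ y, ‖S y‖ ≤ ‖S' y‖ := fun y => norm_fst_le (S' y)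
  have hdiff : ∀ y, ‖(S' - T') y‖ ≤ 1 / 4 * ‖y‖ := by
    intro y
    have h1 := (S' - T').le_opNorm y
    have h2 : ‖S' - T'‖ ≤ 1 / 4 := (hS'T'.trans_le (min_le_right _ _)).le
    exact h1.trans (mul_le_mul_of_nonneg_right h2 (norm_nonneg _))
  have hRJ : ∀ y, ‖R y - J y‖ ≤ 1 / 4 * ‖y‖ := by
    intro y
    have : R y - J y = ((S' - T') y).2 := rfl
    rw [this]
    exact (norm_snd_le _).trans (hdiff y)
  have hRlow : ∀ y, 1 / 4 * ‖y‖ ≤ ‖R y‖ := by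
    intro y
    have h1 := hRJ y
    have h2 : ‖J y‖ ≤ ‖R y‖ + ‖R y - J y‖ := by
      have : J y = R y - (R y - J y) := by abel
      calc ‖J y‖ = ‖R y - (R y - J y)‖ := by rw [← this]
        _ ≤ _ := norm_sub_le _ _
    rw [hJn] at h2
    linarith
  have hRup : ∀ y, ‖R y‖ ≤ 3 / 4 * ‖y‖ := by
    intro y
    have h1 := hRJ y
    have h2 : ‖R y‖ ≤ ‖J y‖ + ‖R y - J y‖ := by
      have : R y = J y + (R y - J y) := by abel
      calc ‖R y‖ = ‖J y + (R y - J y)‖ := by rw [← this]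
        _ ≤ _ := norm_add_le _ _
    rw [hJn] at h2
    linarith
  have hSx₀ : ‖S x₀‖ = 1 := by
    have h1 : ‖S' x₀‖ = max ‖S x₀‖ ‖R x₀‖ := Prod.norm_def (S' x₀)
    rw [hS'x₀] at h1
    have h2 := hRup x₀
    rw [hx₀, mul_one] at h2
    rcases max_choice ‖S x₀‖ ‖R x₀‖ with h3 | h3
    · rw [h3] at h1; exact h1.symm
    · rw [h3] at h1; linarith
  have hSn : ‖S‖ = 1 := by
    apply le_antisymm
    · apply ContinuousLinearMap.opNorm_le_bound _ zero_le_one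
      intro y
      have := S'.le_opNorm y
      rw [hS'1] at this
      exact (hSle y).trans this
    · have := S.le_opNorm x₀
      rw [hSx₀, hx₀, mul_one] at this
      exact this
  refine ⟨S, x₀, ?_, hx₀, hSn, hSx₀, ?_, hxx₀.trans_le (min_le_left _ _)⟩
  · obtain ⟨y₀, hy₀, hexp⟩ := hS'RSE
    refine ⟨y₀, hy₀, fun z hz hlim => ?_⟩
    have hlim' : Tendsto (fun n => ‖S' (z n)‖) atTop (𝓝 ‖S'‖) := by
      rw [hS'1]
      rw [hSn] at hlim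
      refine tendsto_of_tendsto_of_tendsto_of_le_of_le hlim tendsto_const_nhds
        (fun n => hSle (z n)) (fun n => ?_)
      have := S'.le_opNorm (z n)
      rw [hS'1, one_mul] at this
      exact this.trans (hz n)
    obtain ⟨σ, c, hσ, hc, hl⟩ := hexp z hz hlim'
    refine ⟨σ, c, hσ, hc, ?_⟩
    have hl2 : Tendsto (fun n => R (z (σ n))) atTop (𝓝 (c • R y₀)) :=
      (continuous_snd.tendsto (c • S' y₀)).comp hl
    rw [tendsto_iff_norm_sub_tendsto_zero] at hl2 ⊢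
    have h4 : Tendsto (fun n => 4 * ‖R (z (σ n)) - c • R y₀‖) atTop (𝓝 0) := by
      have := hl2.const_mul 4
      rwa [mul_zero] at this
    refine squeeze_zero (fun n => norm_nonneg _) (fun n => ?_) h4
    have h5 := hRlow (z (σ n) - c • y₀)
    rw [map_sub, map_smul] at h5
    linarith
  · have h1 : ‖S - T‖ ≤ ‖S' - T'‖ := by
      apply ContinuousLinearMap.opNorm_le_bound _ (norm_nonneg _)
      intro y
      have : (S - T) y = ((S' - T') y).1 := rfl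
      rw [this]
      exact (norm_fst_le _).trans ((S' - T').le_opNorm y)
    exact h1.trans_lt (hS'T'.trans_le (min_le_left _ _))

end Main

/-- **Positive answer to Q1**, over `ℝ` and over `ℂ`: every universal BPBp-RSE domain is a
universal BPBp-ASE domain (and conversely). Locally: if `(X, Z ⊕_∞ X)` has the BPBp-RSE, then
`(X, Z)` has the BPBp-ASE. -/
theorem result :
    (∀ (𝕜 : Type w) [RCLike 𝕜] (X : Type u) [NormedAddCommGroup X] [NormedSpace 𝕜 X]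
      [CompleteSpace X], IsUniversalRSE 𝕜 X ↔ IsUniversalASE 𝕜 X) ∧
    (∀ (𝕜 : Type w) [RCLike 𝕜] (X : Type u) [NormedAddCommGroup X] [NormedSpace 𝕜 X]
      (Z : Type v) [NormedAddCommGroup Z] [NormedSpace 𝕜 Z],
      BPBpRSE 𝕜 X (Z × X) → BPBpASE 𝕜 X Z) := by
  refine ⟨?_, fun 𝕜 _ X _ _ Z _ _ h => bpbpASE_of_prod h⟩
  intro 𝕜 _ X _ _ _
  constructor
  · intro h Z _ _ _
    exact bpbpASE_of_prod (h (Z × X))
  · intro h Z _ _ _ ε hε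
    obtain ⟨η, h1, h2, h3⟩ := h Z ε hε
    refine ⟨η, h1, h2, fun T hT x hx hTx => ?_⟩
    obtain ⟨S, x₀, hS, h4⟩ := h3 T hT x hx hTx
    exact ⟨S, x₀, isRSE_of_isASE hS, h4⟩

end Pool.Agent.Results.MP_2e9c83_an.UniversalDomains
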